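import Pool.Agent.Helper27.UC.Goals
import Pool.Agent.Helper18.ShghGen
import Pool.Agent.Helper97.Tate.Klev

/-!
PROJECT UC (MP_d3128a_ag), packet CNV: conversions of the generic dimension. (helper15)
-/

set_option autoImplicit false

noncomputable section

namespace Pool.Agent.Helper15.UC.CNV

open Module Pool.Agent.Helper27.UC Pool.Agent.Helper97.Tate

/-- the substitution `X 2 ↦ c` -/
def bet (c : ℂ) : MvPolynomial (Fin 3) ℂ →ₐ[ℂ] MvPolynomial (Fin 3) ℂ :=
  MvPolynomial.aeval ![MvPolynomial.X 0, MvPolynomial.X 1, MvPolynomial.C c]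

theorem bet_monomial (c : ℂ) (e : Fin 3 →₀ ℕ) (a : ℂ) :
    bet c (MvPolynomial.monomial e a) =
      MvPolynomial.monomial (Helper18.Shgh.e3 (e 0) (e 1) 0) (a * c ^ (e 2)) := by
  rw [bet, MvPolynomial.aeval_monomial, Finsupp.prod_fintype _ _ (by simp), Fin.prod_univ_three,
    MvPolynomial.monomial_eq, Finsupp.prod_fintype _ _ (by simp), Fin.prod_univ_three]
  have h0 : Helper18.Shgh.e3 (e 0) (e 1) 0 0 = e 0 := rfl
  have h1 : Helper18.Shgh.e3 (e 0) (e 1) 0 1 = e 1 := rfl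
  have h2 : Helper18.Shgh.e3 (e 0) (e 1) 0 2 = 0 := rfl
  rw [h0, h1, h2, MvPolynomial.algebraMap_eq]
  simp only [Matrix.cons_val_zero, Matrix.cons_val_one, Matrix.cons_val, map_mul, map_pow]
  ring

theorem e3_inj {u v u' v' : ℕ} (h : Helper18.Shgh.e3 u v 0 = Helper18.Shgh.e3 u' v' 0) :
    u = u' ∧ v = v' :=
  ⟨DFunLike.congr_fun h 0, DFunLike.congr_fun h 1⟩

theorem coeff_bet (c : ℂ) (u v : ℕ) (G : MvPolynomial (Fin 3) ℂ) :
    MvPolynomial.coeff (Helper18.Shgh.e3 u v 0) (bet c G) =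
      ∑ e ∈ G.support, if Helper18.Shgh.e3 (e 0) (e 1) 0 = Helper18.Shgh.e3 u v 0 then
        MvPolynomial.coeff e G * c ^ (e 2) else 0 := by
  conv_lhs => rw [G.as_sum, map_sum, MvPolynomial.coeff_sum]
  refine Finset.sum_congr rfl fun e _ => ?_
  rw [bet_monomial, MvPolynomial.coeff_monomial]

theorem coeff_bet_zero (u v : ℕ) (G : MvPolynomial (Fin 3) ℂ) :
    MvPolynomial.coeff (Helper18.Shgh.e3 u v 0) (bet 0 G) =
      MvPolynomial.coeff (Helper18.Shgh.e3 u v 0) G := by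
  rw [coeff_bet, Finset.sum_eq_single (Helper18.Shgh.e3 u v 0)]
  · have h0 : Helper18.Shgh.e3 u v 0 0 = u := rfl
    have h1 : Helper18.Shgh.e3 u v 0 1 = v := rfl
    have h2 : Helper18.Shgh.e3 u v 0 2 = 0 := rfl
    rw [h0, h1, h2, if_pos rfl, pow_zero, mul_one]
  · intro e _ he
    split_ifs with h
    · obtain ⟨h1, h2⟩ := e3_inj h
      have h3 : e 2 ≠ 0 := by
        intro h3
        apply he
        rw [Helper18.Shgh.e3_eq e, h1, h2, h3]
      rw [zero_pow h3, mul_zero]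
    · rfl
  · intro h
    rw [MvPolynomial.notMem_support_iff.1 h, zero_mul, ite_self]

theorem coeff_bet_homog (c : ℂ) {d u v : ℕ} {G : MvPolynomial (Fin 3) ℂ}
    (hG : G.IsHomogeneous d) :
    MvPolynomial.coeff (Helper18.Shgh.e3 u v 0) (bet c G) =
      MvPolynomial.coeff (Helper18.Shgh.e3 u v (d - (u + v))) G * c ^ (d - (u + v)) := by
  rw [coeff_bet, Finset.sum_eq_single (Helper18.Shgh.e3 u v (d - (u + v)))]
  · have h0 : Helper18.Shgh.e3 u v (d - (u + v)) 0 = u := rfl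
    have h1 : Helper18.Shgh.e3 u v (d - (u + v)) 1 = v := rfl
    have h2 : Helper18.Shgh.e3 u v (d - (u + v)) 2 = d - (u + v) := rfl
    rw [h0, h1, h2, if_pos rfl]
  · intro e he h1
    split_ifs with h
    · exfalso
      obtain ⟨h2, h3⟩ := e3_inj h
      apply h1
      have h4 := (Helper18.Shgh.isHomogeneous_iff'.1 hG) e (MvPolynomial.mem_support_iff.1 he)
      have h5 : e.degree = e 0 + e 1 + e 2 := by
        conv_lhs => rw [Helper18.Shgh.e3_eq e]
        rw [Helper18.Shgh.e3_degree]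
      have h6 : e 2 = d - (u + v) := by omega
      rw [Helper18.Shgh.e3_eq e, h2, h3, h6]
    · rfl
  · intro h
    rw [MvPolynomial.notMem_support_iff.1 h, zero_mul, ite_self]

theorem bet_alp {P : Fin 3 → ℂ} (hP : P 2 ≠ 0) (F : MvPolynomial (Fin 3) ℂ) :
    bet (P 2) (Helper18.Shgh.alp (P 0 / P 2) (P 1 / P 2) F) =
      bet 0 (tau P F) := by
  have h : (bet (P 2)).comp (Helper18.Shgh.alp (P 0 / P 2) (P 1 / P 2)) =
      (bet 0).comp (tau P) := by
    apply MvPolynomial.algHom_ext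
    intro i
    fin_cases i
    · simp only [bet, Helper18.Shgh.alp, tau, AlgHom.comp_apply, MvPolynomial.aeval_X, map_add,
        map_mul, Fin.zero_eta, Matrix.cons_val_zero, Matrix.cons_val,
        MvPolynomial.algHom_C, MvPolynomial.algebraMap_eq]
      rw [← map_mul, div_mul_cancel₀ _ hP]
    · simp only [bet, Helper18.Shgh.alp, tau, AlgHom.comp_apply, MvPolynomial.aeval_X, map_add,
        map_mul, Fin.mk_one, Matrix.cons_val_zero, Matrix.cons_val_one, Matrix.cons_val,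
        MvPolynomial.algHom_C, MvPolynomial.algebraMap_eq]
      rw [← map_mul, div_mul_cancel₀ _ hP]
    · simp only [bet, Helper18.Shgh.alp, tau, AlgHom.comp_apply, MvPolynomial.aeval_X, map_add,
        Fin.reduceFinMk, Matrix.cons_val, MvPolynomial.algHom_C, MvPolynomial.algebraMap_eq,
        map_zero, zero_add]
  exact DFunLike.congr_fun h F

/-- the vanishing conditions at a point give the membership in the power of the ideal -/
theorem mem_LI {d M : ℕ} {P : Fin 3 → ℂ} (hP : P 2 ≠ 0) {F : MvPolynomial (Fin 3) ℂ}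
    (hF : F.IsHomogeneous d) (h : F ∈ Van P M) : F ∈ Helper18.Shgh.LI P ^ M := by
  apply Helper18.Shgh.mem_of_psi hP hF
  funext x
  change MvPolynomial.coeff (Helper18.Shgh.e3 x.2 (x.1 - x.2) (d - x.1))
      (Helper18.Shgh.alp (P 0 / P 2) (P 1 / P 2) F) = 0
  have h1 := coeff_bet_homog (P 2) (u := x.2) (v := x.1 - x.2)
    (Helper18.Shgh.alp_homog (P 0 / P 2) (P 1 / P 2) hF)
  have h2 : (x.2 : ℕ) + (x.1 - x.2) = x.1 := by
    have := x.2.2
    omega
  rw [bet_alp hP, coeff_bet_zero, h2] at h1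
  have h3 : MvPolynomial.coeff (Helper18.Shgh.e3 x.2 (x.1 - x.2) 0) (tau P F) = 0 := by
    apply h
    rw [Helper18.Shgh.e3_degree, h2, add_zero]
    exact x.1.2
  rw [h3] at h1
  exact (mul_eq_zero.1 h1.symm).resolve_right (pow_ne_zero _ hP)

theorem mem_Fm' {d : ℕ} {F : MvPolynomial (Fin 3) ℂ} : F ∈ Fm ℂ (d : ℤ) ↔ F.IsHomogeneous d := by
  rw [mem_Fm (by positivity)]
  simp

theorem fin_of_le {d : ℕ} {W : Submodule ℂ (MvPolynomial (Fin 3) ℂ)} (h : W ≤ Fm ℂ (d : ℤ)) :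
    FiniteDimensional ℂ W := by
  have h5 : FiniteDimensional ℂ (MvPolynomial.homogeneousSubmodule (Fin 3) ℂ d) :=
    Module.Finite.iff_fg.2 (MvPolynomial.homogeneousSubmodule_fg (σ := Fin 3) (R := ℂ) d)
  have h6 : W ≤ MvPolynomial.homogeneousSubmodule (Fin 3) ℂ d := by
    intro z hz
    rw [MvPolynomial.mem_homogeneousSubmodule]
    exact mem_Fm'.1 (h hz)
  exact Submodule.finiteDimensional_of_le h6

theorem one (n d N : ℕ) (m : Fin n → ℕ) (h : ∃ G : MvPolynomial (Fin n × Fin 3) ℂ, G ≠ 0 ∧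
    ∀ P : Fin n → Fin 3 → ℂ, (∀ i, P i ≠ 0) →
      MvPolynomial.eval (fun ij : Fin n × Fin 3 => P ij.1 ij.2) G ≠ 0 →
      Module.finrank ℂ
        (↥(MvPolynomial.homogeneousSubmodule (Fin 3) ℂ d ⊓
          ⨅ i : Fin n, Submodule.restrictScalars ℂ
            ((Ideal.span {g : MvPolynomial (Fin 3) ℂ |
                g.IsHomogeneous 1 ∧ MvPolynomial.eval (P i) g = 0}) ^ (m i)
              : Ideal (MvPolynomial (Fin 3) ℂ)))) ≤ N) :
    gd d (Multiset.map m Finset.univ.val) ≤ N := by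
  obtain ⟨G, hG0, hG⟩ := h
  have hH : G * ∏ i : Fin n, MvPolynomial.X (i, 2) ≠ 0 := by
    apply mul_ne_zero hG0
    rw [Finset.prod_ne_zero_iff]
    intro i _
    exact MvPolynomial.X_ne_zero _
  have hQ : ∃ Q : Fin n × Fin 3 → ℂ,
      MvPolynomial.eval Q (G * ∏ i : Fin n, MvPolynomial.X (i, 2)) ≠ 0 := by
    by_contra hc
    push Not at hc
    exact hH (MvPolynomial.funext fun x => by rw [hc x, map_zero])
  obtain ⟨Q, hQ⟩ := hQ
  rw [map_mul, map_prod] at hQ
  have hQG := left_ne_zero_of_mul hQ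
  have hQ2 : ∀ i, Q (i, 2) ≠ 0 := by
    intro i
    have h4 := (Finset.prod_ne_zero_iff.1 (right_ne_zero_of_mul hQ)) i (Finset.mem_univ i)
    rwa [MvPolynomial.eval_X] at h4
  have h1 := hG (fun i j => Q (i, j)) (fun i h0 => hQ2 i (congrFun h0 2)) hQG
  apply Nat.sInf_le
  refine ⟨Multiset.map (fun i : Fin n => ((fun j => Q (i, j)), m i)) Finset.univ.val, ?_, ?_⟩
  · rw [Multiset.map_map]
    rfl
  · refine le_trans ?_ h1
    have hfd : FiniteDimensional ℂ
        (↥(MvPolynomial.homogeneousSubmodule (Fin 3) ℂ d ⊓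
          ⨅ i : Fin n, Submodule.restrictScalars ℂ
            ((Ideal.span {g : MvPolynomial (Fin 3) ℂ |
                g.IsHomogeneous 1 ∧ MvPolynomial.eval (fun j => Q (i, j)) g = 0}) ^ (m i)
              : Ideal (MvPolynomial (Fin 3) ℂ)))) := by
      apply fin_of_le (d := d)
      intro z hz
      exact mem_Fm'.2 (Submodule.mem_inf.1 hz).1
    apply Submodule.finrank_mono
    intro z hz
    obtain ⟨hz1, hz2⟩ := Submodule.mem_inf.1 hz
    have hz3 := mem_Fm'.1 hz1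
    refine Submodule.mem_inf.2 ⟨hz3, ?_⟩
    rw [Submodule.mem_iInf]
    intro i
    rw [Submodule.mem_iInf] at hz2
    have h4 := hz2 ((fun j => Q (i, j)), m i)
    rw [Submodule.mem_iInf] at h4
    have h5 := h4 (Multiset.mem_map.2 ⟨i, Finset.mem_univ_val i, rfl⟩)
    exact mem_LI (P := fun j => Q (i, j)) (hQ2 i) hz3 h5

theorem two (n m d N : ℕ) (h : gd d (rp n m) ≤ N) : ∃ P : Fin n → Fin 3 → ℂ,
    finrank ℂ (Fm ℂ d ⊓ ⨅ l, Van (P l) m : Submodule ℂ (MvPolynomial (Fin 3) ℂ)) ≤ N := by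
  have hne : {N | ∃ L : Multiset ((Fin 3 → ℂ) × ℕ), L.map Prod.snd = rp n m ∧
      finrank ℂ (spc d L) ≤ N}.Nonempty := by
    refine ⟨_, Multiset.replicate n ((fun _ => 0), m), ?_, le_rfl⟩
    rw [Multiset.map_replicate]
  obtain ⟨L, hL, hLN⟩ := Nat.sInf_mem hne
  have hcard : L.toList.length = n := by
    have := congrArg Multiset.card hL
    rw [Multiset.card_map, Multiset.card_replicate] at this
    rw [Multiset.length_toList, this]
  refine ⟨fun l => (L.toList.get (Fin.cast hcard.symm l)).1, ?_⟩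
  refine le_trans ?_ (hLN.trans h)
  have hfd : FiniteDimensional ℂ (spc d L) := fin_of_le (d := d) inf_le_left
  apply Submodule.finrank_mono
  intro z hz
  obtain ⟨hz1, hz2⟩ := Submodule.mem_inf.1 hz
  refine Submodule.mem_inf.2 ⟨hz1, ?_⟩
  rw [Submodule.mem_iInf]
  intro p
  rw [Submodule.mem_iInf]
  intro hp
  have hp2 : p.2 = m := by
    have h1 : p.2 ∈ L.map Prod.snd := Multiset.mem_map_of_mem _ hp
    rw [hL] at h1
    exact Multiset.eq_of_mem_replicate h1
  obtain ⟨k, hk⟩ := List.get_of_mem (Multiset.mem_toList.2 hp)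
  rw [Submodule.mem_iInf] at hz2
  have h3 := hz2 (Fin.cast hcard k)
  have h4 : (L.toList.get (Fin.cast hcard.symm (Fin.cast hcard k))).1 = p.1 := by
    rw [← hk]
    rfl
  change z ∈ Van (L.toList.get (Fin.cast hcard.symm (Fin.cast hcard k))).1 m at h3
  rw [h4] at h3
  rw [hp2]
  exact h3

/-- packet CNV -/
theorem t : Helper27.UC.S_CNV := ⟨one, two⟩

end Pool.Agent.Helper15.UC.CNV
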