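import Pool.Agent.Helper27.UC.Goals4
import Pool.Agent.Helper93.UC.GEN
import Pool.Agent.Helper97.Nag.Main1

/-!
PROJECT UC (MP_d3128a_ag), packet GDG: from `gd` to general points. (helper15)
-/

set_option autoImplicit false

noncomputable section

namespace Pool.Agent.Helper15.UC.GDG

open Module Pool.Agent.Helper27.UC Pool.Agent.Helper97.Tate Pool.Agent.Helper1.All

/-- packet GDG -/
theorem t : Helper27.UC.S_GDG := by
  intro n d m h
  obtain ⟨L, hL1, hL2⟩ := Helper93.UC.GEN.gd_mem d (Multiset.map m Finset.univ.val)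
  obtain ⟨P, hP⟩ := Helper93.UC.GEN.enum n m L hL1
  rw [hP, Helper93.UC.GEN.spc_enum] at hL2
  exact upgrade (Helper97.Nag.transC Helper93.UC.GEN.trk
    ⟨ℂ, inferInstance, inferInstance, P, hL2⟩) h

end Pool.Agent.Helper15.UC.GDG
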